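import Mathlib
import Pool.Agent.N141.SG.Seq5
import Pool.Agent.T9h85.SG.Kat2

set_option autoImplicit false

/-!
# Linear systems of plane curves: multiplicities `Q(t)`, `t` in a set of multiplicative nature

Let `S` be a set of positive integers of positive lower density whose indicator function is, on average and up to arbitrarily small
errors, a linear combination of functions `f` with `|f| ≤ 1` and `f (p n) = c(p) f'(n)` for the primes `p` which do not divide `n`. Such
functions are the bounded multiplicative functions, all bounded functions of the number of the prime divisors of `n` (with or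
without multiplicity), and their products. So `S` can be for instance: the set of the `t` for which the number `Ω(t)` of the prime
factors belongs to an arbitrary set `T` (with bounded gaps), the set of the `t` with `g(t) = z` for an additive function `g` modulo `k`, the
squarefree numbers, the integers composed of the primes of a given set (if this set is large enough), and all sets obtained from these by
complements, finite unions and intersections, and limits. Let `Q` be any nonconstant integral polynomial with positive leading coefficient.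

(1) For at least the proportion `1 / 10000 ^ 23` of the members `t ≤ N` of `S`, `N` large: for EVERY number `n ≥ 10` of points
and EVERY degree `d` the linear system of the curves of degree `d` with `n` general points of multiplicity `Q(t)` has the
expected dimension.

(2) For every `n ≥ 10`, `δ > 0` and `N` large, for at most the proportion `bad n + δ` of the members `t ≤ N` of `S` one of the systems with
`n` points of the multiplicities `m`, `m + 1` (any `m`) and the sum `Q(t)` of the multiplicities does not have the expected dimension;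
`bad n < 1`, `bad n = 0` if `n` is a square, `bad 10 < 0.163`.

Proof. The plane systems are those of helper141 (`Pool.Agent.N141.SG`): a multiplicity `m` is good for all numbers of points if the
numbers `m √r` lie in certain arcs modulo one for 20 radicands `r`. By the criterion of Daboussi and Kátai (in the uniform version of helper699)
the exponential sums of `θ Q(t)` over the members `t ≤ N` of `S` are `o(N)` for every irrational number `θ`.
-/

namespace Pool.Agent.Results.MP_cfebfb_ag.ArithmeticMultiplicities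

open MvPolynomial Filter

/-- Forms of degree `d` vanishing to order at least `w i` at the points `(P i 0 : P i 1 : 1)`. -/
noncomputable def forms {n : ℕ} (P : Fin n → Fin 2 → ℂ) (d : ℕ) (w : Fin n → ℕ) :
    Submodule ℂ (MvPolynomial (Fin 3) ℂ) :=
  homogeneousSubmodule (Fin 3) ℂ d ⊓
    Submodule.restrictScalars ℂ
      (⨅ i : Fin n, (Ideal.span {X 0 - C (P i 0) * X 2, X 1 - C (P i 1) * X 2} :
        Ideal (MvPolynomial (Fin 3) ℂ)) ^ (w i))

/-- The system of the curves of degree `d` with multiplicities `w` at the points `P` is not special: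
its projective dimension is the expected one, `max (virtdim, -1)`. -/
def NotSpecial {n : ℕ} (P : Fin n → Fin 2 → ℂ) (d : ℕ) (w : Fin n → ℕ) : Prop :=
  (Module.finrank ℂ ↥(forms P d w) : ℤ) - 1 =
    max (((d + 2).choose 2 : ℤ) - 1 - ∑ i, ((w i + 1).choose 2 : ℤ)) (-1)

/-- For general points (one nonempty open set for all degrees) the systems of curves with the
multiplicities `w` are not special, in every degree. -/
def NeverSpecial {n : ℕ} (w : Fin n → ℕ) : Prop :=
  ∃ F : MvPolynomial (Fin n × Fin 2) ℂ, F ≠ 0 ∧ ∀ P : Fin n → Fin 2 → ℂ,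
    MvPolynomial.eval (fun ij : Fin n × Fin 2 => P ij.1 ij.2) F ≠ 0 → ∀ d : ℕ, NotSpecial P d w

/-- The multiplicity `m ≥ 1` is good for every number `n ≥ 10` of points and every degree. -/
def Holds (m : ℕ) : Prop := 1 ≤ m ∧ ∀ n : ℕ, 10 ≤ n → NeverSpecial (fun _ : Fin n => m)

/-- All vectors of `n` positive multiplicities with sum `W` which take at most two consecutive values
`m`, `m + 1` are good in every degree. -/
def Good (n W : ℕ) : Prop :=
  ∀ m : ℕ, 0 < m → ∀ w : Fin n → ℕ, (∀ i, w i = m ∨ w i = m + 1) → ∑ i, w i = W → NeverSpecial w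

open Classical in
/-- The bound for the proportion of the bad sums for `n` points. -/
noncomputable def bad (n : ℕ) : ℝ :=
  if IsSquare n then 0
  else (min (√(n : ℝ) - 3) (2 / 3 + 9 / (4 * √(n : ℝ))) +
    min (√(n : ℝ) - 3) (2 / 3 + 1 / (4 * √(n : ℝ)))) / 2

/-- `f` has values in the unit disc and `f (p n) = c p * f' n` for all primes `p` not dividing `n`, with `|c| ≤ 1` and `|f'| ≤ 1`
(`c = f`, `f' = f` for multiplicative functions; `c = 1`, `f' n = G (Ω n + 1)` for functions `f n = G (Ω n)` of the number of prime factors). -/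
def KataiFunction (f : ℕ → ℂ) : Prop := (∀ n, ‖f n‖ ≤ 1) ∧ ∃ (c f' : ℕ → ℂ), (∀ n, ‖c n‖ ≤ 1) ∧
  (∀ n, ‖f' n‖ ≤ 1) ∧ ∀ p n : ℕ, p.Prime → ¬ p ∣ n → f (p * n) = c p * f' n

open Classical in
/-- the indicator function of `S` -/
noncomputable def indicator (S : Set ℕ) (n : ℕ) : ℂ := if n ∈ S then 1 else 0

/-- The indicator function of `S` is a linear combination of Kátai functions, up to arbitrarily small errors on average. -/
def Structured (S : Set ℕ) : Prop :=
  ∀ ε : ℝ, 0 < ε → ∃ (ι : Type) (_ : Fintype ι) (c : ι → ℂ) (f : ι → ℕ → ℂ), (∀ i, KataiFunction (f i)) ∧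
    ∀ᶠ N : ℕ in atTop, ∑ n ∈ Finset.Ioc 0 N, ‖indicator S n - ∑ i, c i * f i n‖ ≤ ε * N

/-- The number of the positive members `t ≤ N` of `S` with `p t`. -/
noncomputable def count (S : Set ℕ) (p : ℕ → Prop) (N : ℕ) : ℝ :=
  ({t : ℕ | (0 < t ∧ t ≤ N) ∧ t ∈ S ∧ p t}.ncard : ℝ)

/-- `S` has positive lower density. -/
def PositiveDensity (S : Set ℕ) : Prop := ∃ κ : ℝ, 0 < κ ∧ ∀ᶠ N : ℕ in atTop, κ * N ≤ count S (fun _ => True) N

/-- The multiplicity `Q(t)` is good for all numbers of points and all degrees for at least the proportion `1 / 10000 ^ 23` of the members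
`t ≤ N` of `S`, and for every `n ≥ 10` the sum `Q(t)` of the multiplicities is not good for at most the proportion `bad n + δ` of them. -/
def Along (S : Set ℕ) (Q : Polynomial ℤ) : Prop :=
  (∀ᶠ N : ℕ in atTop, 1 / 10000 ^ 23 * count S (fun _ => True) N ≤
    count S (fun t => Holds (Q.eval (t : ℤ)).toNat) N) ∧
  ∀ n : ℕ, 10 ≤ n → ∀ δ : ℝ, 0 < δ → ∀ᶠ N : ℕ in atTop,
    count S (fun t => ¬ Good n (Q.eval (t : ℤ)).toNat) N ≤ (bad n + δ) * count S (fun _ => True) N

theorem never_of {n : ℕ} {w : Fin n → ℕ} (h : Pool.Agent.N141.SG.ExN w) : NeverSpecial w := by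
  obtain ⟨F, hF, hF'⟩ := h
  refine ⟨F.map (algebraMap ℚ ℂ), Pool.Agent.H932R3.map_ne_zero_of hF, fun P hP d => ?_⟩
  rw [MvPolynomial.eval_map] at hP
  have h1 := hF' P hP d
  unfold Pool.Agent.H932R3.ExpDim at h1
  unfold NotSpecial forms
  rw [h1]
  have e : ∑ i, ((w i + 1).choose 2 : ℤ) = ((∑ i, (w i + 1).choose 2 : ℕ) : ℤ) := by
    push_cast
    rfl
  rw [e]
  omega

theorem bad_ten : bad 10 < 0.163 := by
  have h1 : √((10 : ℕ) : ℝ) < 3.163 := by
    rw [Real.sqrt_lt' (by norm_num)]
    norm_num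
  have h0 : ¬ IsSquare 10 := by
    rintro ⟨k, hk⟩
    have : k ≤ 3 := by nlinarith
    interval_cases k <;> omega
  unfold bad
  rw [if_neg h0]
  have h2 := min_le_left (√((10 : ℕ) : ℝ) - 3) (2 / 3 + 9 / (4 * √((10 : ℕ) : ℝ)))
  have h3 := min_le_left (√((10 : ℕ) : ℝ) - 3) (2 / 3 + 1 / (4 * √((10 : ℕ) : ℝ)))
  linarith

theorem holds_of {m : ℕ} (hm : 1 ≤ m) (h : Pool.Agent.N141.SG.Tgt (m : ℕ)) : Holds m :=
  ⟨hm, fun _ hn => never_of (w := fun _ => m) (Pool.Agent.N141.SG.every h hm hn)⟩

theorem good_of {n W : ℕ} (h : Pool.Agent.N141.SG.GoodN n W) : Good n W :=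
  fun m hm w hw hsum => never_of (h m hm w hw hsum)

theorem finite_le (S : Set ℕ) (p : ℕ → Prop) (N : ℕ) :
    {t : ℕ | (0 < t ∧ t ≤ N) ∧ t ∈ S ∧ p t}.Finite :=
  (Set.finite_Iic N).subset fun _ ht => ht.1.2

theorem structured_iff (S : Set ℕ) : Structured S ↔ Pool.Agent.T9h85.SG.Structured S := Iff.rfl

theorem count_all (S : Set ℕ) (N : ℕ) :
    count S (fun _ => True) N = ((Pool.Agent.T9h85.SG.seg S N).card : ℝ) := by
  unfold count
  rw [← Set.ncard_coe_finset]
  congr 2
  ext m
  rw [Finset.mem_coe, Pool.Agent.T9h85.SG.mem_seg]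
  exact ⟨fun h => ⟨h.1, h.2.1⟩, fun h => ⟨h.1, h.2, trivial⟩⟩

/-- nonpositive values are rare -/
theorem eventually_pos {Q : Polynomial ℤ} (hQ : 1 ≤ Q.natDegree) (hl : 0 < Q.leadingCoeff) :
    ∃ t₀ : ℕ, ∀ t : ℕ, t₀ ≤ t → 0 < Q.eval (t : ℤ) := by
  have h1 : Tendsto (fun x : ℝ => (Q.map (Int.castRingHom ℝ)).eval x) atTop atTop := by
    apply Polynomial.tendsto_atTop_of_leadingCoeff_nonneg
    · rw [Polynomial.degree_map_eq_of_injective (RingHom.injective_int _)]
      exact Polynomial.natDegree_pos_iff_degree_pos.1 hQ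
    · rw [Polynomial.leadingCoeff_map_of_injective (RingHom.injective_int _)]
      simpa using hl.le
  have h2 := (h1.comp tendsto_natCast_atTop_atTop).eventually_gt_atTop (0 : ℝ)
  obtain ⟨t₀, ht₀⟩ := eventually_atTop.1 h2
  refine ⟨t₀, fun t ht => ?_⟩
  have h3 := ht₀ t ht
  have h4 := Polynomial.eval_intCast_map (Int.castRingHom ℝ) Q (t : ℤ)
  simp only [Function.comp_apply] at h3
  have h5 : ((t : ℤ) : ℝ) = (t : ℝ) := by simp
  rw [h5] at h4
  rw [h4] at h3
  simpa using h3

theorem good_zero {n : ℕ} (hn : 10 ≤ n) : Good n 0 := by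
  intro m hm w hw hsum
  exfalso
  have h1 : w ⟨0, by omega⟩ ≤ ∑ i, w i := Finset.single_le_sum (fun i _ => Nat.zero_le _) (Finset.mem_univ _)
  have h2 := hw ⟨0, by omega⟩
  omega

theorem along {S : Set ℕ} (hS : Structured S) (hd : PositiveDensity S) {Q : Polynomial ℤ}
    (hQ : 1 ≤ Q.natDegree) (hl : 0 < Q.leadingCoeff) : Along S Q := by
  classical
  obtain ⟨κ, hκ, hd⟩ := hd
  simp only [count_all] at hd
  obtain ⟨t₀, ht₀⟩ := eventually_pos hQ hl
  set s : ℕ → Finset ℕ := Pool.Agent.T9h85.SG.seg S with hs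
  have hsmall : ∀ θ : ℝ, Irrational θ →
      Pool.Agent.N141.SG.SmallTo s (fun t => θ * ((Q.eval (t : ℤ) : ℤ) : ℝ)) :=
    fun θ hθ ε hε => Pool.Agent.T9h85.SG.small_structured hQ hθ hS hκ hd hε
  have hlarge : ∀ R : ℝ, ∀ᶠ N : ℕ in atTop, R ≤ ((s N).card : ℝ) := by
    intro R
    obtain ⟨N₁, hN₁⟩ := exists_nat_ge (R / κ)
    filter_upwards [hd, eventually_ge_atTop N₁] with N h1 h2
    have h3 : (N₁ : ℝ) ≤ N := by exact_mod_cast h2
    rw [div_le_iff₀ hκ] at hN₁
    nlinarith
  refine ⟨?_, fun n hn δ hδ => ?_⟩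
  · -- the members `t ≥ t₀`
    set s' : ℕ → Finset ℕ := fun N => (s N).filter fun t => t₀ ≤ t with hs'
    have hsplit : ∀ N, ((s N).card : ℝ) ≤ (s' N).card + t₀ := by
      intro N
      have h1 := Finset.card_filter_add_card_filter_not (s := s N) (fun t => t₀ ≤ t)
      have h2 : ((s N).filter fun t => ¬ t₀ ≤ t).card ≤ t₀ := by
        have : ((s N).filter fun t => ¬ t₀ ≤ t) ⊆ Finset.range t₀ := by
          intro t ht
          rw [Finset.mem_filter] at ht
          rw [Finset.mem_range]
          omega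
        simpa using Finset.card_le_card this
      have h3 : (s N).card ≤ (s' N).card + t₀ := by
        rw [hs']
        simp only
        omega
      exact_mod_cast h3
    have hsmall' : ∀ θ : ℝ, Irrational θ →
        Pool.Agent.N141.SG.SmallTo s' (fun t => θ * ((Q.eval (t : ℤ) : ℤ) : ℝ)) := by
      intro θ hθ ε hε
      filter_upwards [hsmall θ hθ (ε / 4) (by positivity), hlarge (4 * t₀ / ε + 2 * t₀)] with N h1 h2
      set F : ℕ → ℂ := fun t => Pool.Agent.H469R2.NK.e (θ * ((Q.eval (t : ℤ) : ℤ) : ℝ)) with hF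
      have e1 := Finset.sum_filter_add_sum_filter_not (s N) (fun t => t₀ ≤ t) F
      have e2 : ∑ t ∈ s' N, F t = ∑ t ∈ s N, F t - ∑ t ∈ (s N).filter (fun t => ¬ t₀ ≤ t), F t := by
        rw [← e1, hs']
        ring
      have h3 : ‖∑ t ∈ (s N).filter (fun t => ¬ t₀ ≤ t), F t‖ ≤ t₀ := by
        refine (norm_sum_le _ _).trans ?_
        simp only [hF, Pool.Agent.H469R2.NK.norm_e, Finset.sum_const, nsmul_eq_mul, mul_one]
        have : ((s N).filter fun t => ¬ t₀ ≤ t) ⊆ Finset.range t₀ := by
          intro t ht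
          rw [Finset.mem_filter] at ht
          rw [Finset.mem_range]
          omega
        have h4 := Finset.card_le_card this
        rw [Finset.card_range] at h4
        exact_mod_cast h4
      have h5 := hsplit N
      have h6 : (4 * t₀ / ε) ≤ ((s N).card : ℝ) := by
        have : (0 : ℝ) ≤ 2 * t₀ := by positivity
        linarith
      rw [div_le_iff₀ hε] at h6
      have h7 : (2 * t₀ : ℝ) ≤ ((s N).card : ℝ) := by
        have : (0 : ℝ) ≤ 4 * t₀ / ε := by positivity
        linarith
      have h8 : ((s N).card : ℝ) ≤ 2 * (s' N).card := by linarith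
      change ‖∑ t ∈ s' N, F t‖ ≤ ε * ((s' N).card : ℝ)
      rw [e2]
      refine (norm_sub_le _ _).trans ?_
      have h9 : ‖∑ t ∈ s N, F t‖ ≤ ε / 4 * ((s N).card : ℝ) := h1
      have h10 : ((s N).card : ℝ) * ε ≤ 2 * (s' N).card * ε := by gcongr
      linarith
    filter_upwards [Pool.Agent.N141.SG.tgt_of_freq (s := s') (v := fun t => Q.eval (t : ℤ))
      (fun θ hθ => hsmall' θ hθ.1), hlarge (2 * t₀)] with N hN hN2
    rw [count_all]
    have h1 := hsplit N
    have h2 : ((s N).card : ℝ) ≤ 2 * (s' N).card := by linarith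
    have h3 : 1 / 10000 ^ 23 * ((s N).card : ℝ) ≤ 1 / 10000 ^ 22 * ((s' N).card : ℝ) := by
      calc 1 / 10000 ^ 23 * ((s N).card : ℝ) ≤ 1 / 10000 ^ 23 * (2 * (s' N).card) := by gcongr
        _ ≤ 1 / 10000 ^ 22 * ((s' N).card : ℝ) := by
          have : (0 : ℝ) ≤ ((s' N).card : ℝ) := Nat.cast_nonneg _
          nlinarith
    refine h3.trans (hN.trans ?_)
    have hsub : {t : ℕ | t ∈ s' N ∧ Pool.Agent.N141.SG.Tgt (Q.eval (t : ℤ))} ⊆
        {t : ℕ | (0 < t ∧ t ≤ N) ∧ t ∈ S ∧ Holds (Q.eval (t : ℤ)).toNat} := by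
      rintro t ⟨ht, htgt⟩
      obtain ⟨h4, h5⟩ := Finset.mem_filter.1 ht
      obtain ⟨h6, h7⟩ := Pool.Agent.T9h85.SG.mem_seg.1 h4
      have h8 := ht₀ t h5
      refine ⟨h6, h7, holds_of (by omega) ?_⟩
      rw [Int.toNat_of_nonneg h8.le]
      exact htgt
    unfold count
    exact_mod_cast Set.ncard_le_ncard hsub (finite_le _ _ _)
  · filter_upwards [Pool.Agent.N141.SG.near_seq hn (s := s) (v := fun t => Q.eval (t : ℤ))
      (fun θ hθ _ => hsmall θ hθ) hδ] with N hN
    rw [count_all]
    refine le_trans ?_ hN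
    have hsub : {t : ℕ | (0 < t ∧ t ≤ N) ∧ t ∈ S ∧ ¬ Good n (Q.eval (t : ℤ)).toNat} ⊆
        {t : ℕ | t ∈ s N ∧ ∃ W : ℕ, 1 ≤ W ∧ (W : ℤ) = Q.eval (t : ℤ) ∧
          ¬ Pool.Agent.N141.SG.GoodN n W} := by
      rintro t ⟨h1, h2, h3⟩
      have h4 : 1 ≤ (Q.eval (t : ℤ)).toNat := by
        rcases Nat.eq_zero_or_pos (Q.eval (t : ℤ)).toNat with h0 | h0
        · rw [h0] at h3
          exact absurd (good_zero hn) h3
        · exact h0
      refine ⟨Pool.Agent.T9h85.SG.mem_seg.2 ⟨h1, h2⟩, (Q.eval (t : ℤ)).toNat, h4,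
        Int.toNat_of_nonneg (by omega), fun h5 => h3 (good_of h5)⟩
    unfold count
    exact_mod_cast Set.ncard_le_ncard hsub
      ((Finset.finite_toSet (s N)).subset fun n hn => hn.1)

theorem density_of {S : Set ℕ} (h : ∃ κ : ℝ, 0 < κ ∧ ∀ᶠ N : ℕ in atTop,
    κ * N ≤ ((Pool.Agent.T9h85.SG.seg S N).card : ℝ)) : PositiveDensity S := by
  obtain ⟨κ, h1, h2⟩ := h
  refine ⟨κ, h1, ?_⟩
  simp only [count_all]
  exact h2

open ArithmeticFunction in
/-- **Main result.** The main theorem is the first part; the other parts give structured sets. -/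
theorem result :
    (∀ S : Set ℕ, Structured S → PositiveDensity S → ∀ Q : Polynomial ℤ, 1 ≤ Q.natDegree →
      0 < Q.leadingCoeff → Along S Q) ∧
    (∀ S T : Set ℕ, Structured S → Structured T → Structured Sᶜ ∧ Structured (S ∩ T)) ∧
    (∀ T : Set ℕ, Structured {t | cardFactors t ∈ T} ∧ Structured {t | cardDistinctFactors t ∈ T} ∧
      ((∃ ℓ : ℕ, ∀ a, ∃ b ∈ T, a ≤ b ∧ b < a + ℓ) → PositiveDensity {t | cardFactors t ∈ T})) ∧
    (∀ (k : ℕ) (g : ℕ → ZMod k), 1 ≤ k → (∀ m n : ℕ, m.Coprime n → g (m * n) = g m + g n) →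
      ∀ z : ZMod k, Structured {t | g t = z}) ∧
    (∀ S : Set ℕ, (∀ m n : ℕ, m.Coprime n → (m * n ∈ S ↔ m ∈ S ∧ n ∈ S)) → Structured S) ∧
    (∀ n : ℕ, 10 ≤ n → bad n < 1) ∧ bad 10 < 0.163 := by
  refine ⟨fun S hS hd Q hQ hl => along hS hd hQ hl, fun S T hS hT =>
    ⟨Pool.Agent.T9h85.SG.Structured.compl hS, Pool.Agent.T9h85.SG.Structured.inter hS hT⟩,
    fun T => ⟨Pool.Agent.T9h85.SG.Structured.of_level Pool.Agent.T9h85.SG.cardFactors_level T,
      Pool.Agent.T9h85.SG.Structured.of_level Pool.Agent.T9h85.SG.cardDistinctFactors_level T,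
      fun h => ?_⟩, fun k g hk hg z => ?_,
    fun S h => Pool.Agent.T9h85.SG.Structured.of_multiplicative h,
    fun n hn => Pool.Agent.N141.SG.badN_lt hn, bad_ten⟩
  · obtain ⟨ℓ, hℓ⟩ := h
    refine density_of (Pool.Agent.T9h85.SG.density_level (g := fun t => cardFactors t) (fun n hn => ?_) hℓ)
    rw [cardFactors_mul two_ne_zero (by omega), cardFactors_apply_prime Nat.prime_two]
    ring
  · have : NeZero k := ⟨by omega⟩
    exact Pool.Agent.T9h85.SG.Structured.of_additive (fun p n hp hn =>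
      hg p n ((Nat.Prime.coprime_iff_not_dvd hp).2 hn)) z

end Pool.Agent.Results.MP_cfebfb_ag.ArithmeticMultiplicities
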