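import Mathlib
import Pool.Agent.N141.SG.Seq5
import Pool.Agent.T9h85.SG.Digits

set_option autoImplicit false

/-!
# Linear systems of plane curves whose multiplicities are integers with restricted digits

Let `b_0, b_1, ...` be a bounded sequence of integers `b_j ≥ 2`, and write the positive integers in the number system with these bases: the
digits of `m` are `(m / B_j) mod b_j`, where `B_j = b_0 b_1 ⋯ b_(j-1)` (for `b_j = b` these are the digits in base `b`). For every position `j`
let an arbitrary nonempty set `D_j` of admissible digits be given. We assume only that there are positions with at least two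
admissible digits in every interval of `ℓ` positions. Let `S` be the set of all positive integers with admissible digits: for instance
the integers without certain digits in base `b` (also with only two admissible digits, of which one or none is zero), or with prescribed digits
at all the positions outside a set with bounded gaps. These sets are thin: `S` may have only `X ^ ε` members up to `X`.

(1) For at least the proportion `1 / 10000 ^ 22` of the members `m ≤ X` of `S`, `X` large: for EVERY number `n ≥ 10` of points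
and EVERY degree `d` the linear system of the curves of degree `d` with `n` general points of multiplicity `m` has the expected dimension.

(2) For every `n ≥ 10`, `δ > 0` and `X` large, for at most the proportion `bad n + δ` of the members `W ≤ X` of `S` one of the systems with
`n` points of the multiplicities `m`, `m + 1` (any `m`) and the sum `W` of the multiplicities does not have the expected dimension;
`bad n < 1`, `bad n = 0` if `n` is a square, `bad 10 < 0.163`.

Proof. The plane systems are those of helper141 (`Pool.Agent.N141.SG`): a multiplicity `m` is good for all numbers of points if the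
numbers `m √r` lie in certain arcs modulo one for 20 radicands `r`. The new part is that the exponential sums of `θ m` over the members
`m ≤ X` of `S` are of smaller order than their number, for EVERY irrational number `θ`: over the full blocks of digits the sum is a product
over the positions, and at infinitely many positions with two admissible digits the factor is smaller than the number of the digits by a
constant factor, because the distance of `h θ B_j` to the nearest integer cannot be small for many consecutive `j` (it grows).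
-/

namespace Pool.Agent.Results.MP_cfebfb_ag.DigitMultiplicities

open MvPolynomial Filter

/-- Forms of degree `d` vanishing to order at least `w i` at the points `(P i 0 : P i 1 : 1)`. -/
noncomputable def forms {n : ℕ} (P : Fin n → Fin 2 → ℂ) (d : ℕ) (w : Fin n → ℕ) :
    Submodule ℂ (MvPolynomial (Fin 3) ℂ) :=
  homogeneousSubmodule (Fin 3) ℂ d ⊓
    Submodule.restrictScalars ℂ
      (⨅ i : Fin n, (Ideal.span {X 0 - C (P i 0) * X 2, X 1 - C (P i 1) * X 2} :
        Ideal (MvPolynomial (Fin 3) ℂ)) ^ (w i))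

/-- The system of the curves of degree `d` with multiplicities `w` at the points `P` is not special:
its projective dimension is the expected one, `max (virtdim, -1)`. -/
def NotSpecial {n : ℕ} (P : Fin n → Fin 2 → ℂ) (d : ℕ) (w : Fin n → ℕ) : Prop :=
  (Module.finrank ℂ ↥(forms P d w) : ℤ) - 1 =
    max (((d + 2).choose 2 : ℤ) - 1 - ∑ i, ((w i + 1).choose 2 : ℤ)) (-1)

/-- For general points (one nonempty open set for all degrees) the systems of curves with the
multiplicities `w` are not special, in every degree. -/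
def NeverSpecial {n : ℕ} (w : Fin n → ℕ) : Prop :=
  ∃ F : MvPolynomial (Fin n × Fin 2) ℂ, F ≠ 0 ∧ ∀ P : Fin n → Fin 2 → ℂ,
    MvPolynomial.eval (fun ij : Fin n × Fin 2 => P ij.1 ij.2) F ≠ 0 → ∀ d : ℕ, NotSpecial P d w

/-- The multiplicity `m ≥ 1` is good for every number `n ≥ 10` of points and every degree. -/
def Holds (m : ℕ) : Prop := 1 ≤ m ∧ ∀ n : ℕ, 10 ≤ n → NeverSpecial (fun _ : Fin n => m)

/-- All vectors of `n` positive multiplicities with sum `W` which take at most two consecutive values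
`m`, `m + 1` are good in every degree. -/
def Good (n W : ℕ) : Prop :=
  ∀ m : ℕ, 0 < m → ∀ w : Fin n → ℕ, (∀ i, w i = m ∨ w i = m + 1) → ∑ i, w i = W → NeverSpecial w

open Classical in
/-- The bound for the proportion of the bad sums for `n` points. -/
noncomputable def bad (n : ℕ) : ℝ :=
  if IsSquare n then 0
  else (min (√(n : ℝ) - 3) (2 / 3 + 9 / (4 * √(n : ℝ))) +
    min (√(n : ℝ) - 3) (2 / 3 + 1 / (4 * √(n : ℝ)))) / 2

/-- The place values `B_j = b_0 b_1 ⋯ b_(j-1)`; for `b_j = b` this is `b ^ j`. -/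
def place (b : ℕ → ℕ) (j : ℕ) : ℕ := ∏ i ∈ Finset.range j, b i

/-- The set of the positive integers `m` all of whose digits `(m / B_j) mod b_j`, `B_j ≤ m`, belong to the sets `D j`. -/
def Restricted (b : ℕ → ℕ) (D : ℕ → Set ℕ) : Set ℕ :=
  {m | 1 ≤ m ∧ ∀ j, place b j ≤ m → m / place b j % b j ∈ D j}

/-- The bases `b j ≥ 2` are bounded, every set `D j` contains a digit, and the gaps between the positions `j` for which `D j` contains
at least two digits are bounded. -/
structure DigitSystem (b : ℕ → ℕ) (D : ℕ → Set ℕ) : Prop where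
  bases : ∃ β : ℕ, ∀ j, 2 ≤ b j ∧ b j ≤ β
  nonempty : ∀ j, ∃ d ∈ D j, d < b j
  gaps : ∃ ℓ : ℕ, ∀ j, ∃ i, j ≤ i ∧ i < j + ℓ ∧ ∃ d ∈ D i, ∃ d' ∈ D i, d < d' ∧ d' < b i

/-- The number of the members `m ≤ X` of `S` with `p m`. -/
noncomputable def count (S : Set ℕ) (p : ℕ → Prop) (X : ℕ) : ℝ :=
  ({m : ℕ | m ≤ X ∧ m ∈ S ∧ p m}.ncard : ℝ)

theorem never_of {n : ℕ} {w : Fin n → ℕ} (h : Pool.Agent.N141.SG.ExN w) : NeverSpecial w := by
  obtain ⟨F, hF, hF'⟩ := h
  refine ⟨F.map (algebraMap ℚ ℂ), Pool.Agent.H932R3.map_ne_zero_of hF, fun P hP d => ?_⟩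
  rw [MvPolynomial.eval_map] at hP
  have h1 := hF' P hP d
  unfold Pool.Agent.H932R3.ExpDim at h1
  unfold NotSpecial forms
  rw [h1]
  have e : ∑ i, ((w i + 1).choose 2 : ℤ) = ((∑ i, (w i + 1).choose 2 : ℕ) : ℤ) := by
    push_cast
    rfl
  rw [e]
  omega

theorem bad_ten : bad 10 < 0.163 := by
  have h1 : √((10 : ℕ) : ℝ) < 3.163 := by
    rw [Real.sqrt_lt' (by norm_num)]
    norm_num
  have h0 : ¬ IsSquare 10 := by
    rintro ⟨k, hk⟩
    have : k ≤ 3 := by nlinarith
    interval_cases k <;> omega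
  unfold bad
  rw [if_neg h0]
  have h2 := min_le_left (√((10 : ℕ) : ℝ) - 3) (2 / 3 + 9 / (4 * √((10 : ℕ) : ℝ)))
  have h3 := min_le_left (√((10 : ℕ) : ℝ) - 3) (2 / 3 + 1 / (4 * √((10 : ℕ) : ℝ)))
  linarith

theorem holds_of {m : ℕ} (hm : 1 ≤ m) (h : Pool.Agent.N141.SG.Tgt (m : ℕ)) : Holds m :=
  ⟨hm, fun _ hn => never_of (w := fun _ => m) (Pool.Agent.N141.SG.every h hm hn)⟩

theorem good_of {n W : ℕ} (h : Pool.Agent.N141.SG.GoodN n W) : Good n W :=
  fun m hm w hw hsum => never_of (h m hm w hw hsum)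

theorem finite_le (S : Set ℕ) (p : ℕ → Prop) (X : ℕ) : {m : ℕ | m ≤ X ∧ m ∈ S ∧ p m}.Finite :=
  (Set.finite_Iic X).subset fun _ hm => hm.1

theorem sys_of {b : ℕ → ℕ} {D : ℕ → Set ℕ} (h : DigitSystem b D) :
    ∃ β ℓ : ℕ, Pool.Agent.T9h85.SG.Sys b D β ℓ := by
  obtain ⟨β, hβ⟩ := h.bases
  obtain ⟨ℓ, hℓ⟩ := h.gaps
  exact ⟨β, ℓ, fun j => (hβ j).1, fun j => (hβ j).2, h.nonempty, hℓ⟩

theorem count_all (b : ℕ → ℕ) (D : ℕ → Set ℕ) (X : ℕ) :
    count (Restricted b D) (fun _ => True) X = ((Pool.Agent.T9h85.SG.upTo b D X).card : ℝ) := by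
  unfold count
  rw [← Set.ncard_coe_finset]
  congr 2
  ext m
  rw [Finset.mem_coe, Pool.Agent.T9h85.SG.mem_upTo]
  exact ⟨fun h => ⟨h.1, h.2.1⟩, fun h => ⟨h.1, h.2, trivial⟩⟩

/-- **Main result.** -/
theorem result :
    (∀ (b : ℕ → ℕ) (D : ℕ → Set ℕ), DigitSystem b D →
      (Restricted b D).Infinite ∧
      (∀ᶠ X : ℕ in atTop, 1 / 10000 ^ 22 * count (Restricted b D) (fun _ => True) X ≤
        count (Restricted b D) Holds X) ∧
      ∀ n : ℕ, 10 ≤ n → ∀ δ : ℝ, 0 < δ → ∀ᶠ X : ℕ in atTop,
        count (Restricted b D) (fun W => ¬ Good n W) X ≤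
          (bad n + δ) * count (Restricted b D) (fun _ => True) X) ∧
    (∀ n : ℕ, 10 ≤ n → bad n < 1) ∧ bad 10 < 0.163 := by
  refine ⟨fun b D h => ?_, fun n hn => Pool.Agent.N141.SG.badN_lt hn, bad_ten⟩
  obtain ⟨β, ℓ, hs⟩ := sys_of h
  have hsmall : ∀ θ : ℝ, Irrational θ →
      Pool.Agent.N141.SG.SmallTo (Pool.Agent.T9h85.SG.upTo b D) (fun t => θ * ((t : ℕ) : ℤ)) := by
    intro θ hθ ε hε
    have h1 := hs.small hθ hε
    simpa using h1
  refine ⟨hs.infinite, ?_, fun n hn δ hδ => ?_⟩
  · filter_upwards [Pool.Agent.N141.SG.tgt_of_freq (s := Pool.Agent.T9h85.SG.upTo b D)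
      (v := fun t => (t : ℤ)) (fun θ hθ => hsmall θ hθ.1)] with X hX
    rw [count_all]
    refine hX.trans ?_
    have hsub : {n : ℕ | n ∈ Pool.Agent.T9h85.SG.upTo b D X ∧ Pool.Agent.N141.SG.Tgt (n : ℤ)} ⊆
        {m : ℕ | m ≤ X ∧ m ∈ Restricted b D ∧ Holds m} := by
      rintro m ⟨hm, ht⟩
      obtain ⟨h1, h2⟩ := Pool.Agent.T9h85.SG.mem_upTo.1 hm
      exact ⟨h1, h2, holds_of h2.1 ht⟩
    unfold count
    exact_mod_cast Set.ncard_le_ncard hsub (finite_le _ _ _)
  · filter_upwards [Pool.Agent.N141.SG.near_seq hn (s := Pool.Agent.T9h85.SG.upTo b D)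
      (v := fun t => (t : ℤ)) (fun θ hθ _ => hsmall θ hθ) hδ] with X hX
    rw [count_all]
    refine le_trans ?_ hX
    have hsub : {m : ℕ | m ≤ X ∧ m ∈ Restricted b D ∧ ¬ Good n m} ⊆
        {t : ℕ | t ∈ Pool.Agent.T9h85.SG.upTo b D X ∧ ∃ W : ℕ, 1 ≤ W ∧ (W : ℤ) = (t : ℤ) ∧
          ¬ Pool.Agent.N141.SG.GoodN n W} := by
      rintro m ⟨h1, h2, h3⟩
      exact ⟨Pool.Agent.T9h85.SG.mem_upTo.2 ⟨h1, h2⟩, m, h2.1, rfl, fun h4 => h3 (good_of h4)⟩
    unfold count
    exact_mod_cast Set.ncard_le_ncard hsub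
      ((Finset.finite_toSet (Pool.Agent.T9h85.SG.upTo b D X)).subset fun n hn => hn.1)

end Pool.Agent.Results.MP_cfebfb_ag.DigitMultiplicities
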