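import Mathlib
import Pool.Agent.T9h41.SG.WinO

set_option autoImplicit false

/-!
# Segre's conjecture with nine arbitrary multiplicities

General points of the complex projective plane, `L` the system of the curves of degree `d` with the
multiplicities `m i`. At most nine of the multiplicities, those at the points of `S`, are arbitrary,
the others are at most `μ`; the number of the points is arbitrary. Let

  `κ(μ) = ∑_{1 ≤ q < μ} (μ + 1 - q' choose 2) / ((μ + 1 choose 2) - (μ + 1 - q' choose 2))`,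
  `q' = max q 2`,

so that `κ(3) = 2 / 5`, `κ(4) = 61 / 63` and `κ(μ) ≤ (μ / 2) (1 + 1 / 2 + … + 1 / (μ - 1))`. Segre's
conjecture holds for `L` outside of a short window for the virtual dimension: if

  `vdim L ≥ (μ - 1) d`  or  `vdim L + 1 ≤ - κ(μ) (d + (μ + 1 choose 2))`

and `L` is special, then `L` has a multiple fixed component. So for given multiplicities the degrees
`d ≤ d'` in which the conjecture can fail satisfy
`(d' - d) (d + d' + 3) < 2 (μ - 1) d' + 2 κ(μ) (d + (μ + 1 choose 2))`; if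
`2 d ≥ 2 κ(μ) (μ + 1 choose 2) + μ ^ 2`, then `d' - d < μ + κ(μ)`. This does not depend on the nine
multiplicities and on the number of the points.

More precisely, let `D` be a number such that no curve of degree `d` with the nine multiplicities has
a multiplicity larger than `D` at another general point, for instance `D = d` or
`D = min d (3 d - the sum of eight of the nine multiplicities)`. Then one may replace `d` by `D` in
the inequalities above. If `L` is special and has no multiple fixed component, then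
`0 ≤ dim L < (m i - 1) (D + 1 - m i)` for some `i` outside of `S` with `m i ≥ 3`, and
`0 < dim L - vdim L ≤ κ(μ) (D + (μ + 1 choose 2))`.
-/

namespace Pool.Agent.Results.MP_cfebfb_ag.NineArbitraryMultiplicities

open MvPolynomial Pool.Agent.TH167.SHDefs

/-- The property holds for all `n`-tuples of points outside some hypersurface. -/
def ForGeneral {n : ℕ} (p : (Fin n → Fin 2 → ℂ) → Prop) : Prop :=
  ∃ F : MvPolynomial (Fin n × Fin 2) ℂ, F ≠ 0 ∧ ∀ P : Fin n → Fin 2 → ℂ,
    eval (fun ij : Fin n × Fin 2 => P ij.1 ij.2) F ≠ 0 → p P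

/-- The system has a multiple fixed component: the square of a form of positive degree divides all
its members. -/
def Multiple {n : ℕ} (P : Fin n → Fin 2 → ℂ) (d : ℕ) (m : Fin n → ℕ) : Prop :=
  ∃ g : MvPolynomial (Fin 3) ℂ, 0 < g.totalDegree ∧ ∀ f ∈ sys P d m, g ^ 2 ∣ f

/-- Segre's conjecture for the degree `d` and the multiplicities `m`. -/
def Segre {n : ℕ} (d : ℕ) (m : Fin n → ℕ) : Prop :=
  ForGeneral fun P => Special P d m → Multiple P d m

/-- No curve of degree `d` with the multiplicities `m i` at the points `P i`, `i ∈ S`, has a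
multiplicity larger than `D` at another point `P k`; the points are general. -/
def Width {n : ℕ} (d : ℕ) (m : Fin n → ℕ) (S : Finset (Fin n)) (D : ℕ) : Prop :=
  ForGeneral fun P => ∀ k, k ∉ S →
    dimL P d (fun i => if i = k then D + 1 else if i ∈ S then m i else 0) = -1

/-- The constant. -/
def kappa (μ : ℕ) : ℚ := ∑ q ∈ Finset.Icc 1 (μ - 1),
  ((μ + 1 - max 2 q).choose 2 : ℚ) / ((μ + 1).choose 2 - (μ + 1 - max 2 q).choose 2)

theorem and_gen {n : ℕ} {p q : (Fin n → Fin 2 → ℂ) → Prop} (hp : ForGeneral p)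
    (hq : ForGeneral q) : ForGeneral fun P => p P ∧ q P := by
  obtain ⟨F, hF, h1⟩ := hp
  obtain ⟨G, hG, h2⟩ := hq
  refine ⟨F * G, mul_ne_zero hF hG, fun P hP => ?_⟩
  rw [map_mul] at hP
  exact ⟨h1 P (left_ne_zero_of_mul hP), h2 P (right_ne_zero_of_mul hP)⟩

open Pool.Agent.TH167.SH Pool.Agent.W609.CR in
theorem result (r μ : ℕ) (hμ : 1 ≤ μ) (m : Fin (r + 4) → ℕ) (S : Finset (Fin (r + 4)))
    (hS : S.card ≤ 9) (hm : ∀ i, i ∉ S → m i ≤ μ) :
    -- (1) the special systems
    (∀ d D : ℕ, Width d m S D → ForGeneral fun P => Pool.Agent.TH167.SHDefs.Special P d m →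
      Multiple P d m ∨ 0 ≤ dimL P d m ∧
        (∃ i, i ∉ S ∧ 3 ≤ m i ∧ dimL P d m < ((m i : ℤ) - 1) * (D + 1 - m i)) ∧
        virtdim d m < dimL P d m ∧
        ((dimL P d m - virtdim d m : ℤ) : ℚ) ≤ kappa μ * (D + (μ + 1).choose 2)) ∧
    -- (2) Segre's conjecture outside of a window
    (∀ d D : ℕ, Width d m S D → ((μ : ℤ) - 1) * D ≤ virtdim d m ∨
      ((virtdim d m : ℤ) : ℚ) + 1 ≤ -(kappa μ * (D + (μ + 1).choose 2)) → Segre d m) ∧
    -- (3) the width
    (∀ d : ℕ, Width d m S d ∧ ∀ A : Finset (Fin (r + 4)), A ⊆ S → A.card ≤ 8 →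
      Width d m S (min d (3 * d - ∑ i ∈ A, m i))) ∧
    -- (4) the degrees for given multiplicities
    (∀ d d' : ℕ, d ≤ d' → ¬ Segre d m → ¬ Segre d' m →
      ((d' : ℚ) - d) * (d + d' + 3) < 2 * ((μ : ℚ) - 1) * d' +
        2 * (kappa μ * (d + (μ + 1).choose 2)) ∧
      (2 * (kappa μ * (μ + 1).choose 2) + (μ : ℚ) ^ 2 ≤ 2 * d → (d' : ℚ) - d < μ + kappa μ)) ∧
    -- (5) the constant
    kappa μ ≤ (μ : ℚ) / 2 * harmonic (μ - 1) := by
  classical
  have hkap : kappa μ = Pool.Agent.T9h41.SG.kap μ := rfl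
  have hkn : 0 ≤ kappa μ := by
    rw [hkap]
    exact Finset.sum_nonneg fun i _ => Pool.Agent.T9h41.SG.rho_nonneg hμ
  have hup : ∀ (k : Fin (r + 4)) (D : ℕ),
      (fun i => if i = k then D + 1 else if i ∈ S then m i else 0) =
        Function.update (Pool.Agent.T9h41.SG.rs S m) k (D + 1) := by
    intro k D
    funext i
    by_cases hi : i = k
    · rw [hi, Function.update_self, if_pos rfl]
    · rw [Function.update_of_ne hi, if_neg hi]
      rfl
  have h1 : ∀ d D : ℕ, Width d m S D → ForGeneral fun P =>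
      Pool.Agent.TH167.SHDefs.Special P d m →
      Multiple P d m ∨ 0 ≤ dimL P d m ∧
        (∃ i, i ∉ S ∧ 3 ≤ m i ∧ dimL P d m < ((m i : ℤ) - 1) * (D + 1 - m i)) ∧
        virtdim d m < dimL P d m ∧
        ((dimL P d m - virtdim d m : ℤ) : ℚ) ≤ kappa μ * (D + (μ + 1).choose 2) := by
    intro d D hD
    obtain ⟨F, hF0, hF⟩ := Pool.Agent.T9h41.SG.open_box m d
    obtain ⟨G, hG0, hG⟩ := and_gen hD (⟨F.map (algebraMap ℚ ℂ), map_ne hF0, fun P hP => by
      rw [evP_eval] at hP
      exact hF ℂ P hP⟩ : ForGeneral fun P => Pool.Agent.T9h41.SG.Gen P d m)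
    refine ⟨G, hG0, fun P hP hspec => ?_⟩
    obtain ⟨w1, w2⟩ := hG P hP
    have hWid : Pool.Agent.T9h41.SG.Wid P d S D m := by
      intro k hk
      have h2 := w1 k hk
      rw [hup, dimL_eq] at h2
      omega
    unfold Pool.Agent.TH167.SHDefs.Special at hspec
    have hle := chi_le_dim P d m
    rw [dimL_eq, virtdim_eq] at hspec
    rcases Nat.eq_zero_or_pos (Module.finrank ℂ ↥(VS (fun j => aff (P j)) m d)) with h0 | h0
    · exfalso
      rw [h0] at hspec hle
      push_cast at hspec hle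
      omega
    · have hsp : 0 < Pool.Agent.T9h41.SG.sp P d m := by
        unfold Pool.Agent.T9h41.SG.sp
        by_contra hcon
        apply hspec
        omega
      rw [dimL_eq, virtdim_eq]
      rcases Pool.Agent.T9h41.SG.alt_all hμ w2 hS hm hWid h0 hsp with ⟨g, hg, hg2⟩ |
        ⟨⟨i, hi1, hi2, hi3⟩, h2⟩
      · left
        refine ⟨g, hg, fun f hf => hg2 f ?_⟩
        rwa [sys_eq] at hf
      · right
        refine ⟨by omega, ⟨i, hi1, hi2, by linarith⟩, ?_, ?_⟩
        · unfold Pool.Agent.T9h41.SG.sp at hsp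
          omega
        · have h3 : ((Module.finrank ℂ ↥(VS (fun j => aff (P j)) m d) : ℤ) - 1 -
              (chi d m - 1) : ℤ) = Pool.Agent.T9h41.SG.sp P d m := by
            unfold Pool.Agent.T9h41.SG.sp
            ring
          rw [h3]
          exact h2
  have h2 : ∀ d D : ℕ, Width d m S D → ((μ : ℤ) - 1) * D ≤ virtdim d m ∨
      ((virtdim d m : ℤ) : ℚ) + 1 ≤ -(kappa μ * (D + (μ + 1).choose 2)) → Segre d m := by
    intro d D hD hcase
    obtain ⟨F, hF0, hF⟩ := h1 d D hD
    refine ⟨F, hF0, fun P hP hspec => ?_⟩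
    rcases hF P hP hspec with h | ⟨a1, ⟨i, i1, i2, i3⟩, a3, a4⟩
    · exact h
    · exfalso
      rcases hcase with h | h
      · have h5 : (m i : ℤ) ≤ μ := by exact_mod_cast hm i i1
        have h6 : (3 : ℤ) ≤ m i := by exact_mod_cast i2
        have h7 : (0 : ℤ) ≤ (D : ℤ) := Int.natCast_nonneg _
        have h8 : ((m i : ℤ) - 1) * (D + 1 - m i) ≤ ((μ : ℤ) - 1) * D := by
          nlinarith
        linarith
      · have h5 : ((dimL P d m - virtdim d m : ℤ) : ℚ) =
            (dimL P d m : ℚ) - (virtdim d m : ℚ) := by push_cast; rfl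
        rw [h5] at a4
        have h6 : (0 : ℚ) ≤ (dimL P d m : ℚ) := by exact_mod_cast a1
        linarith
  have h3 : ∀ d : ℕ, Width d m S d := by
    intro d
    refine ⟨1, one_ne_zero, fun P _ k hk => ?_⟩
    rw [dimL_eq]
    have h4 : Module.finrank ℂ ↥(VS (fun j => aff (P j))
        (fun i => if i = k then d + 1 else if i ∈ S then m i else 0) d) = 0 := by
      by_contra hne
      obtain ⟨g, hg, hg0⟩ := Pool.Agent.TH167.TT.exists_mem (Nat.pos_of_ne_zero hne)
      have h5 := (Pool.Agent.TH167.SH.mem_VS _ _ _ _).1 hg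
      have h6 := h5.2 k
      rw [if_pos rfl] at h6
      have h7 := van_le hg0 h5.1 h6
      omega
    rw [h4]
    rfl
  refine ⟨h1, h2, fun d => ⟨h3 d, fun A hAS hA => ?_⟩, ?_, ?_⟩
  · obtain ⟨F, hF0, hF⟩ := Pool.Agent.T9h41.SG.wid_min d m hAS hA
    refine ⟨F.map (algebraMap ℚ ℂ), map_ne hF0, fun P hP k hk => ?_⟩
    rw [evP_eval] at hP
    rw [hup, dimL_eq, hF ℂ P hP k hk]
    rfl
  · intro d d' hdd hd hd'
    have e1 : ((virtdim d' m : ℤ) : ℚ) < ((μ : ℚ) - 1) * d' := by
      by_contra hcon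
      push Not at hcon
      apply hd'
      refine h2 d' d' (h3 d') (Or.inl ?_)
      exact_mod_cast hcon
    have e2 : -(kappa μ * (d + (μ + 1).choose 2)) < ((virtdim d m : ℤ) : ℚ) + 1 := by
      by_contra hcon
      push Not at hcon
      exact hd (h2 d d (h3 d) (Or.inr hcon))
    have e3 : 2 * ((virtdim d' m : ℤ) - virtdim d m) = ((d' : ℤ) - d) * (d + d' + 3) := by
      unfold virtdim
      have f1 := H932R7.two_choose d
      have f2 := H932R7.two_choose d'
      have f1' : (2 : ℤ) * (((d + 2).choose 2 : ℕ) : ℤ) = ((d : ℤ) + 1) * (d + 2) := by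
        exact_mod_cast f1
      have f2' : (2 : ℤ) * (((d' + 2).choose 2 : ℕ) : ℤ) = ((d' : ℤ) + 1) * (d' + 2) := by
        exact_mod_cast f2
      linarith
    have e1' : ((virtdim d' m : ℤ) : ℚ) + 1 ≤ ((μ : ℚ) - 1) * d' := by
      have g1 : virtdim d' m < ((μ : ℤ) - 1) * d' := by exact_mod_cast e1
      have g2 : virtdim d' m + 1 ≤ ((μ : ℤ) - 1) * d' := g1
      exact_mod_cast g2
    have e3' : 2 * (((virtdim d' m : ℤ) : ℚ) - ((virtdim d m : ℤ) : ℚ)) =
        ((d' : ℚ) - d) * (d + d' + 3) := by exact_mod_cast e3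
    have e4 : ((d' : ℚ) - d) * (d + d' + 3) < 2 * ((μ : ℚ) - 1) * d' +
        2 * (kappa μ * (d + (μ + 1).choose 2)) := by
      rw [← e3']
      linarith
    refine ⟨e4, fun hlarge => ?_⟩
    by_contra hcon
    push Not at hcon
    obtain ⟨x, hx⟩ : ∃ x : ℚ, x = (d' : ℚ) - d := ⟨_, rfl⟩
    have hd'' : (d' : ℚ) = d + x := by rw [hx]; ring
    rw [← hx] at hcon
    rw [hd''] at e4
    have hd0 : (0 : ℚ) ≤ (d : ℚ) := Nat.cast_nonneg _
    have hμ1 : (1 : ℚ) ≤ (μ : ℚ) := by exact_mod_cast hμ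
    have g1 : (0 : ℚ) ≤ (x - μ - kappa μ) * d := mul_nonneg (by linarith) hd0
    nlinarith [sq_nonneg (x - μ + 5 / 2), sq_nonneg (x - μ)]
  · rw [hkap]
    exact Pool.Agent.T9h41.SG.kap_le μ

end Pool.Agent.Results.MP_cfebfb_ag.NineArbitraryMultiplicities
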