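import Mathlib
import Pool.Agent.T9h41.SG.StrO

set_option autoImplicit false

/-!
# Linear systems of plane curves with a reduced member: adjoint systems and tangent cones

`s = r + 4` general points of the complex projective plane; the points are outside of one
hypersurface, which depends on the degree `d` and the multiplicities `m` only. Let `L` be the system
of the curves of degree `d` with the multiplicities `m i`, and assume that `L` has a reduced member,
possibly with many components, fixed or not. Let `h⁰`, `h¹` be the cohomology of the class of `L` on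
the blow-up, `c i = h⁰(L) - h⁰(L - E i)` the dimension of the space of the tangent cones (forms of
degree `m i`) of the members of `L` at the point `P i`, and `t i = max 2 (c i)`.

1. For every set `S` of at most nine points all systems with multiplicities `u i ≤ m i` at the points
   of `S` and `u i ≤ m i - 1` at the others are non-special, the conditions are independent.
2. `h⁰(L) + ∑ i, ∑_{u i < j ≤ m i} min j (t i) ≤ h⁰(L_u)` for all `u ≤ m`.
3. `h¹(L_S) ≤ h¹(L) ≤ h¹(L_S) + ∑_{i ∉ S} (m i + 1 - t i choose 2)` for every set `S` of points and the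
   system `L_S` with the multiplicities `m i` at the points of `S` only. So all points with
   `m i ≤ t i` can be forgotten.
4. `h¹(L) ≤ ∑_{i ∉ S} max (m i - t i) 0` for every set `S` of at most nine points.
5. If `c k ≤ m k` then `h⁰(L) ≤ c k (M + 1 - m k)` for all `M` such that no curve in `L` has a
   multiplicity larger than `M` at `P k`, for instance `M = d`.
6. So if `L` is special, then at least ten of the points satisfy `m i ≥ 3`, `t i < m i` and
   `h⁰(L) ≤ (m i - 1) (d + 1 - m i)`.
-/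

namespace Pool.Agent.Results.MP_cfebfb_ag.ReducedSystems

open MvPolynomial Pool.Agent.TH167.SHDefs

/-- `h⁰` of the class `d H - ∑ m i E i`: the dimension of the space of the forms. -/
noncomputable def hZero {s : ℕ} (P : Fin s → Fin 2 → ℂ) (d : ℕ) (m : Fin s → ℕ) : ℤ :=
  dimL P d m + 1

/-- `h¹` of the class `d H - ∑ m i E i`: the dimension of the linear system minus the virtual one. -/
noncomputable def hOne {s : ℕ} (P : Fin s → Fin 2 → ℂ) (d : ℕ) (m : Fin s → ℕ) : ℤ :=
  dimL P d m - virtdim d m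

/-- The multiplicities `m`, except for `M` at the point `k`. -/
def at_ {s : ℕ} (m : Fin s → ℕ) (k : Fin s) (M : ℕ) : Fin s → ℕ := fun i => if i = k then M else m i

/-- The dimension of the space of the tangent cones at the point `k` of the members of the
system. -/
noncomputable def cone {s : ℕ} (P : Fin s → Fin 2 → ℂ) (d : ℕ) (m : Fin s → ℕ) (k : Fin s) : ℕ :=
  (hZero P d m - hZero P d (at_ m k (m k + 1))).toNat

/-- The multiplicities at the points of `S`, and zero at the other points. -/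
def restrict {s : ℕ} (S : Finset (Fin s)) (m : Fin s → ℕ) : Fin s → ℕ :=
  fun i => if i ∈ S then m i else 0

/-- The system is special. -/
def IsSpecial {s : ℕ} (P : Fin s → Fin 2 → ℂ) (d : ℕ) (m : Fin s → ℕ) : Prop :=
  dimL P d m ≠ max (virtdim d m) (-1)

open Pool.Agent.TH167 Pool.Agent.TH167.SH Pool.Agent.W609.CR in
theorem result (r d : ℕ) (m : Fin (r + 4) → ℕ) :
    ∃ Q : MvPolynomial (Fin (r + 4) × Fin 2) ℂ, Q ≠ 0 ∧ ∀ P : Fin (r + 4) → Fin 2 → ℂ,
      eval (fun ij : Fin (r + 4) × Fin 2 => P ij.1 ij.2) Q ≠ 0 →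
      (∃ f ∈ sys P d m, Squarefree f) →
      -- (1) the adjoint systems
      (∀ S : Finset (Fin (r + 4)), S.card ≤ 9 → ∀ u : Fin (r + 4) → ℕ,
        (∀ i, u i ≤ if i ∈ S then m i else m i - 1) → hOne P d u = 0) ∧
      -- (2) the number of the conditions
      (∀ u : Fin (r + 4) → ℕ, (∀ i, u i ≤ m i) →
        hZero P d m + ∑ i, ∑ j ∈ Finset.Ioc (u i) (m i), ((min j (max 2 (cone P d m i)) : ℕ) : ℤ) ≤
          hZero P d u) ∧
      -- (3) forgetting points
      (∀ S : Finset (Fin (r + 4)), hOne P d (restrict S m) ≤ hOne P d m ∧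
        hOne P d m ≤ hOne P d (restrict S m) +
          ∑ i ∈ Sᶜ, ((m i + 1 - max 2 (cone P d m i)).choose 2 : ℤ)) ∧
      -- (4) the superabundance
      (∀ S : Finset (Fin (r + 4)), S.card ≤ 9 →
        hOne P d m ≤ ∑ i ∈ Sᶜ, ((m i - max 2 (cone P d m i) : ℕ) : ℤ)) ∧
      -- (5) the dimension
      (∀ (k : Fin (r + 4)) (M : ℕ), (∀ f ∈ sys P d (at_ m k (M + 1)), f = 0) →
        cone P d m k ≤ m k → hZero P d m ≤ (cone P d m k : ℤ) * ((M + 1 - m k : ℕ) : ℤ)) ∧
      -- (6) special systems
      (IsSpecial P d m → 10 ≤ (Finset.univ.filter fun i => 3 ≤ m i ∧ cone P d m i < m i ∧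
        hZero P d m ≤ ((m i - 1 : ℕ) : ℤ) * ((d + 1 - m i : ℕ) : ℤ)).card) := by
  classical
  obtain ⟨F, hF0, hF⟩ := Pool.Agent.T9h41.SG.open_box m d
  refine ⟨F.map (algebraMap ℚ ℂ), map_ne hF0, fun P hP hsqf => ?_⟩
  rw [evP_eval] at hP
  have hgen : Pool.Agent.T9h41.SG.Gen P d m := hF ℂ P hP
  obtain ⟨f, hf, hsq⟩ := hsqf
  rw [sys_eq] at hf
  obtain ⟨a2, a3, a4, a5⟩ := Pool.Agent.T9h41.SG.main_all hgen hf hsq
  have hpos := Pool.Agent.TH167.TT.pos_of_mem hf hsq.ne_zero
  have hsp : ∀ u : Fin (r + 4) → ℕ, hOne P d u = Pool.Agent.T9h41.SG.sp P d u := by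
    intro u
    unfold hOne Pool.Agent.T9h41.SG.sp
    rw [dimL_eq, virtdim_eq]
    ring
  have hz : ∀ u : Fin (r + 4) → ℕ, hZero P d u =
      (Module.finrank ℂ ↥(VS (fun j => aff (P j)) u d) : ℤ) := by
    intro u
    unfold hZero
    rw [dimL_eq]
    ring
  have hat : ∀ k M, at_ m k M = Function.update m k M := by
    intro k M
    funext i
    unfold at_
    by_cases hi : i = k
    · rw [hi, if_pos rfl, Function.update_self]
    · rw [if_neg hi, Function.update_of_ne hi]
  have hcone : ∀ i, cone P d m i = Pool.Agent.T9h41.SG.rk P d m i := by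
    intro i
    unfold cone Pool.Agent.T9h41.SG.rk
    rw [hz, hz, hat]
    omega
  have hif : ∀ (S : Finset (Fin (r + 4))) (f : Fin (r + 4) → ℕ),
      ((∑ j, (if j ∈ S then 0 else f j) : ℕ) : ℤ) = ∑ j ∈ Sᶜ, (f j : ℤ) := by
    intro S f
    rw [← Nat.cast_sum]
    congr 1
    have h5 : Sᶜ = Finset.univ.filter fun j => j ∉ S := by
      ext j
      simp
    rw [h5, Finset.sum_filter]
    refine Finset.sum_congr rfl fun j _ => ?_
    by_cases hj : j ∈ S
    · rw [if_pos hj, if_neg (fun h => h hj)]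
    · rw [if_neg hj, if_pos hj]
  have h4 : ∀ S : Finset (Fin (r + 4)), S.card ≤ 9 →
        hOne P d m ≤ ∑ i ∈ Sᶜ, ((m i - max 2 (cone P d m i) : ℕ) : ℤ) := by
    intro S hS
    have h := a4 S hS
    rw [hif] at h
    simp only [← hcone] at h
    rw [hsp]
    exact h
  have h5 : ∀ (k : Fin (r + 4)) (M : ℕ), (∀ f ∈ sys P d (at_ m k (M + 1)), f = 0) →
        cone P d m k ≤ m k → hZero P d m ≤ (cone P d m k : ℤ) * ((M + 1 - m k : ℕ) : ℤ) := by
    intro k M hM hk
    rw [hcone] at hk ⊢
    have h := a5 k M (by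
      by_contra hne
      obtain ⟨g, hg, hg0⟩ := Pool.Agent.TH167.TT.exists_mem (Nat.pos_of_ne_zero hne)
      apply hg0
      apply hM
      rw [sys_eq, hat]
      exact hg) hk
    rw [hz]
    exact_mod_cast h
  have hd : ∀ k : Fin (r + 4), ∀ f ∈ sys P d (at_ m k (d + 1)), f = 0 := by
    intro k g hg
    by_contra hg0
    rw [sys_eq, hat] at hg
    have h1 := (SH.mem_VS _ _ _ _).1 hg
    have h2 := h1.2 k
    rw [Function.update_self] at h2
    have h3 := van_le hg0 h1.1 h2
    omega
  refine ⟨fun S hS u hu => ?_, fun u hu => ?_, fun S => ?_, h4, h5, fun hspec => ?_⟩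
  · rw [hsp]
    exact Pool.Agent.T9h41.SG.adj_all hgen hf hsq hS hu
  · have h := a2 u hu
    simp only [← hcone] at h
    rw [hz, hz]
    have h7 : ((Module.finrank ℂ ↥(VS (fun j => aff (P j)) m d) +
        ∑ i, ∑ j ∈ Finset.Ioc (u i) (m i), min j (max 2 (cone P d m i)) : ℕ) : ℤ) ≤
        ((Module.finrank ℂ ↥(VS (fun j => aff (P j)) u d) : ℕ) : ℤ) := by exact_mod_cast h
    rw [Nat.cast_add] at h7
    have h8 : ((∑ i, ∑ j ∈ Finset.Ioc (u i) (m i), min j (max 2 (cone P d m i)) : ℕ) : ℤ) =
        ∑ i, ∑ j ∈ Finset.Ioc (u i) (m i), ((min j (max 2 (cone P d m i)) : ℕ) : ℤ) := by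
      rw [Nat.cast_sum]
      exact Finset.sum_congr rfl fun i _ => Nat.cast_sum _ _
    rw [h8] at h7
    exact h7
  · obtain ⟨b1, b2⟩ := a3 S
    rw [hif] at b2
    simp only [← hcone] at b2
    rw [hsp, hsp]
    exact ⟨b1, b2⟩
  · obtain ⟨B, hB⟩ : ∃ B : Finset (Fin (r + 4)), B = Finset.univ.filter fun i => 3 ≤ m i ∧
        cone P d m i < m i ∧
        hZero P d m ≤ ((m i - 1 : ℕ) : ℤ) * ((d + 1 - m i : ℕ) : ℤ) := ⟨_, rfl⟩
    rw [← hB]
    by_contra hcon
    push Not at hcon
    have h6 := h4 B (by omega)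
    have h7 : ∑ i ∈ Bᶜ, ((m i - max 2 (cone P d m i) : ℕ) : ℤ) = 0 := by
      refine Finset.sum_eq_zero fun i hi => ?_
      rw [Finset.mem_compl, hB, Finset.mem_filter] at hi
      by_contra hne
      apply hi
      have h8 : max 2 (cone P d m i) < m i := by omega
      refine ⟨Finset.mem_univ i, by omega, by omega, ?_⟩
      refine (h5 i d (hd i) (by omega)).trans ?_
      have h9 : cone P d m i * (d + 1 - m i) ≤ (m i - 1) * (d + 1 - m i) :=
        Nat.mul_le_mul_right _ (by omega)
      exact_mod_cast h9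
    rw [h7] at h6
    have h8 := Pool.Agent.T9h41.SG.sp_nonneg P d m
    rw [← hsp] at h8
    have h9 : hOne P d m = 0 := le_antisymm h6 h8
    apply hspec
    have h10 := hz m
    unfold hZero at h10
    unfold hOne at h9
    omega

end Pool.Agent.Results.MP_cfebfb_ag.ReducedSystems
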